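import Pool.Agent.Run7.h932.DS.Stm

set_option autoImplicit false

namespace Run7.h332.DS

open Finset Classical Run7.h932.DS

theorem t_EXV : S_EXV := by
  intro n m d hd
  have hcard : Fintype.card (HE m) = Fintype.card (Σ x : Fin n, Fin (d x)) := by
    simp [Fintype.card_sigma, hd]; ring
  let e := Fintype.equivOfCardEq hcard
  refine ⟨fun h => (e h).1, fun x => ?_⟩
  unfold cnt
  have h1 : (univ.filter fun h => (e h).1 = x).card =
      (univ.filter fun s : Σ x : Fin n, Fin (d x) => s.1 = x).card :=
    Finset.card_equiv e (by simp)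
  have h2 : (univ.filter fun s : Σ x : Fin n, Fin (d x) => s.1 = x).card =
      (univ : Finset (Fin (d x))).card := by
    symm
    refine Finset.card_bij (fun i _ => ⟨x, i⟩) (by simp) ?_ ?_
    · intro a _ b _ hab
      simpa using hab
    · rintro ⟨y, i⟩ hy
      simp only [mem_filter, mem_univ, true_and] at hy
      subst hy
      exact ⟨i, by simp, rfl⟩
  refine Eq.trans (b := (univ.filter fun h => (e h).1 = x).card) (by congr) ?_
  rw [h1, h2]
  simp

end Run7.h332.DS
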