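import Pool.Agent.Run7.h932.DS.Stm

set_option autoImplicit false

namespace Run7.h332.DS

open Finset Classical Run7.h932.DS

/-- The other position of the same edge. -/
def fl {m : ℕ} (p : HE m) : HE m := (p.1, !p.2)

theorem fl_fl {m : ℕ} (p : HE m) : fl (fl p) = p := by simp [fl]

section
variable {n m : ℕ} (v : HE m → Fin n) (G : SimpleGraph (Fin n))

theorem exists_rho (hG : Deg G (cnt v)) : ∃ ρ : HE m ≃ G.Dart, ∀ h, (ρ h).fst = v h := by
  have hx : ∀ x : Fin n, Nonempty ({h : HE m // v h = x} ≃ {d : G.Dart // d.fst = x}) := by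
    intro x
    refine ⟨Fintype.equivOfCardEq ?_⟩
    rw [Fintype.card_subtype, Fintype.card_subtype]
    have h1 := G.dart_fst_fiber_card_eq_degree x
    have h2 := hG x
    unfold cnt at h2
    have h3 : (univ.filter fun y => G.Adj x y).card = G.degree x := by
      rw [← SimpleGraph.card_neighborFinset_eq_degree]
      congr 1
      ext y
      simp
    have h4 : (univ.filter fun h => v h = x).card = (univ.filter fun d : G.Dart => d.fst = x).card :=
      by have h5 := h2.symm.trans (h3.trans h1.symm); convert h5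
    convert h4
  let ee : ∀ x : Fin n, {h : HE m // v h = x} ≃ {d : G.Dart // d.fst = x} := fun x => (hx x).some
  refine ⟨(Equiv.sigmaFiberEquiv v).symm.trans ((Equiv.sigmaCongrRight ee).trans
    (Equiv.sigmaFiberEquiv fun d : G.Dart => d.fst)), fun h => ?_⟩
  have := (ee (v h) ⟨h, rfl⟩).2
  simpa [Equiv.sigmaFiberEquiv] using this

theorem card_dart (hG : Deg G (cnt v)) : Fintype.card G.Dart = 2 * m := by
  obtain ⟨ρ, -⟩ := exists_rho v G hG
  rw [← Fintype.card_congr ρ]
  simp; ring

theorem exists_psi (hG : Deg G (cnt v)) : ∃ ψ : HE m ≃ G.Dart, ∀ p, ψ (fl p) = (ψ p).symm := by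
  have hc := card_dart v G hG
  have he : Fintype.card G.edgeSet = m := by
    have h1 := G.dart_card_eq_twice_card_edges
    rw [hc, SimpleGraph.edgeFinset_card] at h1
    have h2 : Fintype.card G.edgeSet = m := by
      have : 2 * m = 2 * Fintype.card G.edgeSet := by convert h1
      omega
    exact h2
  let e : Fin m ≃ G.edgeSet := (Fintype.equivFinOfCardEq he).symm
  have hd : ∀ j : Fin m, ∃ d : G.Dart, d.edge = (e j : Sym2 (Fin n)) := by
    intro j
    obtain ⟨⟨z, hz⟩, hj⟩ : ∃ z, z = e j := ⟨_, rfl⟩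
    rw [← hj]
    induction z using Sym2.ind with
    | _ a b => exact ⟨⟨(a, b), by simpa using hz⟩, rfl⟩
  choose dd hdd using hd
  let g : HE m → G.Dart := fun p => if p.2 then (dd p.1).symm else dd p.1
  have hge : ∀ p, (g p).edge = (e p.1 : Sym2 (Fin n)) := by
    rintro ⟨j, b⟩
    cases b <;> simp [g, hdd]
  have hgs : ∀ p, g (fl p) = (g p).symm := by
    rintro ⟨j, b⟩
    cases b <;> simp [g, fl]
  have hinj : Function.Injective g := by
    intro p q h
    have h1 : p.1 = q.1 := by
      have := hge p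
      rw [h, hge q] at this
      exact (e.injective (Subtype.ext this)).symm
    obtain ⟨j, b⟩ := p
    obtain ⟨j', b'⟩ := q
    simp only at h1
    subst h1
    by_contra hne
    have hb : b' = !b := by
      cases b <;> cases b' <;> simp_all
    have h2 : g (j, b') = (g (j, b)).symm := by
      rw [hb]; exact hgs (j, b)
    rw [← h] at h2
    exact (SimpleGraph.Dart.symm_ne _) h2.symm
  have hbij : Function.Bijective g := by
    rw [Fintype.bijective_iff_injective_and_card]
    refine ⟨hinj, ?_⟩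
    rw [hc]; simp; ring
  exact ⟨Equiv.ofBijective g hbij, hgs⟩

/-- The numberings of the darts. -/
abbrev PsiT : Type := {ψ : HE m ≃ G.Dart // ∀ p, ψ (fl p) = (ψ p).symm}

/-- The half-edges as darts. -/
abbrev RhoT : Type := {ρ : HE m ≃ G.Dart // ∀ h, (ρ h).fst = v h}

theorem card_psi (hG : Deg G (cnt v)) : Fintype.card (PsiT (m := m) G) =
    Fintype.card {σ : Equiv.Perm (HE m) // ∀ p, σ (fl p) = fl (σ p)} := by
  obtain ⟨ψ₀, h0⟩ := exists_psi v G hG
  have h0' : ∀ d : G.Dart, ψ₀.symm d.symm = fl (ψ₀.symm d) := by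
    intro d
    rw [Equiv.symm_apply_eq, h0, Equiv.apply_symm_apply]
  refine Fintype.card_congr (Equiv.subtypeEquiv
    (Equiv.equivCongr (Equiv.refl _) ψ₀.symm) ?_)
  intro ψ
  constructor
  · intro h p
    simp only [Equiv.equivCongr, Equiv.coe_fn_mk, Equiv.refl_symm, Equiv.trans_apply, Equiv.coe_refl, id]
    simp [h, h0']
  · intro h p
    have := h p
    simp only [Equiv.equivCongr, Equiv.coe_fn_mk, Equiv.refl_symm, Equiv.trans_apply] at this
    simp only [Equiv.refl_apply] at this
    rw [← h0'] at this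
    exact ψ₀.symm.injective this

theorem card_rho (hG : Deg G (cnt v)) : Fintype.card (RhoT v G) =
    Fintype.card {τ : Equiv.Perm (HE m) // ∀ h, v (τ h) = v h} := by
  obtain ⟨ρ₀, h0⟩ := exists_rho v G hG
  have h0' : ∀ d : G.Dart, v (ρ₀.symm d) = d.fst := by
    intro d
    rw [← h0, Equiv.apply_symm_apply]
  refine Fintype.card_congr (Equiv.subtypeEquiv
    (Equiv.equivCongr (Equiv.refl _) ρ₀.symm) ?_)
  intro ρ
  constructor
  · intro h p
    simp only [Equiv.equivCongr, Equiv.coe_fn_mk, Equiv.refl_symm, Equiv.trans_apply, Equiv.refl_apply]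
    rw [h0', h]
  · intro h p
    have := h p
    simp only [Equiv.equivCongr, Equiv.coe_fn_mk, Equiv.refl_symm, Equiv.trans_apply, Equiv.refl_apply] at this
    rwa [h0'] at this

/-- The representation. -/
theorem rep_of (ψ : PsiT (m := m) G) (ρ : RhoT v G) : Rep v (ψ.1.trans ρ.1.symm) G := by
  have h1 : ∀ p, v ((ψ.1.trans ρ.1.symm) p) = (ψ.1 p).fst := by
    intro p
    rw [← ρ.2]; simp
  have h2 : ∀ p, v ((ψ.1.trans ρ.1.symm) (fl p)) = (ψ.1 p).snd := by
    intro p
    rw [h1, ψ.2]; rfl
  have h3 : ∀ j : Fin m, v ((ψ.1.trans ρ.1.symm) (j, true)) = (ψ.1 (j, false)).snd := fun j => h2 (j, false)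
  refine ⟨fun j => ?_, ?_⟩
  · rw [h1, h3]; exact (ψ.1 (j, false)).adj
  · intro j j' h
    simp only [h1 (j, false), h1 (j', false), h3] at h
    have h4 : (ψ.1 (j, false)).edge = (ψ.1 (j', false)).edge := h
    rcases (SimpleGraph.dart_edge_eq_iff _ _).1 h4 with h5 | h5
    · have := ψ.1.injective h5
      simpa using this
    · rw [← ψ.2] at h5
      have := ψ.1.injective h5
      simp [fl] at this

theorem card_rep (hG : Deg G (cnt v)) :
    (univ.filter fun π : Equiv.Perm (HE m) => Rep v π G).card =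
      Fintype.card (PsiT (m := m) G) * Fintype.card (RhoT v G) := by
  rw [← Fintype.card_prod, ← Fintype.card_subtype]
  symm
  let f : PsiT (m := m) G × RhoT v G → {π : Equiv.Perm (HE m) // Rep v π G} :=
    fun x => ⟨x.1.1.trans x.2.1.symm, rep_of v G x.1 x.2⟩
  refine Fintype.card_of_bijective (f := f) ⟨?_, ?_⟩
  · rintro ⟨ψ, ρ⟩ ⟨ψ', ρ'⟩ h
    have h0 : ψ.1.trans ρ.1.symm = ψ'.1.trans ρ'.1.symm := congrArg Subtype.val h
    have h1 : ∀ p, v ((ψ.1.trans ρ.1.symm) p) = (ψ.1 p).fst := by
      intro p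
      rw [← ρ.2]; simp
    have h1' : ∀ p, v ((ψ'.1.trans ρ'.1.symm) p) = (ψ'.1 p).fst := by
      intro p
      rw [← ρ'.2]; simp
    have h2 : ψ.1 = ψ'.1 := by
      ext p
      · rw [← h1, ← h1', h0]
      · have e1 : (ψ.1 p).snd = (ψ.1 (fl p)).fst := by rw [ψ.2]; rfl
        have e2 : (ψ'.1 p).snd = (ψ'.1 (fl p)).fst := by rw [ψ'.2]; rfl
        show ((ψ.1 p).snd : ℕ) = ((ψ'.1 p).snd : ℕ)
        rw [e1, e2, ← h1, ← h1', h0]
    have h3 : ρ.1 = ρ'.1 := by
      rw [h2] at h0
      have h4 : ρ.1.symm = ρ'.1.symm := by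
        ext1 d
        have := congrArg (fun e : Equiv.Perm (HE m) => e (ψ'.1.symm d)) h0
        simpa using this
      rw [← Equiv.symm_symm ρ.1, h4, Equiv.symm_symm]
    exact Prod.ext (Subtype.ext h2) (Subtype.ext h3)
  · rintro ⟨π, h1, h2⟩
    have hadj : ∀ p : HE m, G.Adj (v (π p)) (v (π (fl p))) := by
      rintro ⟨j, b⟩
      cases b
      · exact h1 j
      · exact (h1 j).symm
    let g : HE m → G.Dart := fun p => ⟨(v (π p), v (π (fl p))), hadj p⟩
    have hgs : ∀ p, g (fl p) = (g p).symm := by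
      intro p
      ext
      · rfl
      · show ((v (π (fl (fl p))) : Fin n) : ℕ) = _
        rw [fl_fl]; rfl
    have hge : ∀ p, (g p).edge = s(v (π (p.1, false)), v (π (p.1, true))) := by
      rintro ⟨j, b⟩
      cases b
      · rfl
      · exact Sym2.eq_swap
    have hinj : Function.Injective g := by
      intro p q h
      have h3 : p.1 = q.1 := by
        apply h2
        show s(v (π (p.1, false)), v (π (p.1, true))) = s(v (π (q.1, false)), v (π (q.1, true)))
        rw [← hge, ← hge, h]
      obtain ⟨j, b⟩ := p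
      obtain ⟨j', b'⟩ := q
      simp only at h3
      subst h3
      by_contra hne
      have hb : b' = !b := by
        cases b <;> cases b' <;> simp_all
      have h4 : g (j, b') = (g (j, b)).symm := by
        rw [hb]; exact hgs (j, b)
      rw [← h] at h4
      exact (SimpleGraph.Dart.symm_ne _) h4.symm
    have hbij : Function.Bijective g := by
      rw [Fintype.bijective_iff_injective_and_card]
      refine ⟨hinj, ?_⟩
      rw [card_dart v G hG]; simp; ring
    refine ⟨(⟨Equiv.ofBijective g hbij, hgs⟩, ⟨π.symm.trans (Equiv.ofBijective g hbij), ?_⟩), ?_⟩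
    · intro h
      show v (π (π.symm h)) = v h
      simp
    · apply Subtype.ext
      show (Equiv.ofBijective g hbij).trans (π.symm.trans (Equiv.ofBijective g hbij)).symm = π
      ext1 p
      simp

end

theorem t_REP : S_REP := by
  intro n m v
  refine ⟨Fintype.card {σ : Equiv.Perm (HE m) // ∀ p, σ (fl p) = fl (σ p)} *
    Fintype.card {τ : Equiv.Perm (HE m) // ∀ h, v (τ h) = v h}, fun G hG => ?_⟩
  rw [card_rep v G hG, card_psi v G hG, card_rho v G hG]

end Run7.h332.DS
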